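import Pool.Agent.helper78.NLS.Spec
import Pool.Agent.helper92.MP.MI

set_option autoImplicit false

open Complex Metric Set Filter Topology MeasureTheory MPS
open Pool.Agent.helper98.ILF Pool.Agent.helper16.Multibrot
open scoped Convolution

noncomputable section

namespace NLS

theorem CTS_int (z : ℂ) (R : ℝ) : IntegrableOn (fun w : ℂ => 1 / ‖z - w‖) (ball 0 R) := by
  have h : IntegrableOn (fun w : ℂ => 1 / ‖w - z‖) (ball 0 R) := by
    refine (MPS.MI_int z (R + dist 0 z)).mono_set ?_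
    exact ball_subset_ball' le_rfl
  refine h.congr_fun ?_ measurableSet_ball
  intro w _
  simp only [norm_sub_rev]

theorem CTS_loc : LocallyIntegrable (fun w : ℂ => 1 / w) volume := by
  rw [locallyIntegrable_iff]
  intro k hk
  obtain ⟨R, hR⟩ := hk.isBounded.subset_ball 0
  refine IntegrableOn.mono_set ?_ hR
  have h1 : IntegrableOn (fun w : ℂ => 1 / ‖(0 : ℂ) - w‖) (ball 0 R) := CTS_int 0 R
  refine Integrable.mono h1 ?_ ?_
  · exact (measurable_const.div measurable_id).aestronglyMeasurable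
  · refine Eventually.of_forall fun w => ?_
    simp

/-- the bilinear map. -/
def CTS_L : ℂ →L[ℝ] ℂ →L[ℝ] ℂ := ContinuousLinearMap.mul ℝ ℂ

theorem CTS_sc {R : ℝ} {h : ℂ → ℂ} (hh : Sc R h) : HasCompactSupport h := by
  refine HasCompactSupport.intro (isCompact_closedBall (0 : ℂ) R) ?_
  intro x hx
  apply hh.supp
  rw [mem_closedBall, dist_zero_right, not_le] at hx
  exact hx.le

theorem CTS_conv (g : ℂ → ℂ) (z : ℂ) :
    ((fun w : ℂ => 1 / w) ⋆[CTS_L, volume] g) z = ∫ w : ℂ, g (z - w) / w := by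
  unfold convolution CTS_L
  refine integral_congr_ae (Eventually.of_forall fun w => ?_)
  simp only [ContinuousLinearMap.mul_apply']
  ring

theorem CTS_integrable {g : ℂ → ℂ} (hg : Continuous g) (hc : HasCompactSupport g) (z : ℂ) :
    Integrable (fun w : ℂ => g (z - w) / w) := by
  have h1 := hc.convolutionExists_right CTS_L CTS_loc hg z
  unfold ConvolutionExistsAt at h1
  refine h1.congr (Eventually.of_forall fun w => ?_)
  simp only [CTS_L, ContinuousLinearMap.mul_apply']
  ring

theorem CTS_Ct (g : ℂ → ℂ) :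
    Ct g = fun z => (1 / Real.pi : ℂ) * ((fun w : ℂ => 1 / w) ⋆[CTS_L, volume] g) z := by
  funext z
  rw [CTS_conv]
  rfl

theorem CTS_sm {R : ℝ} {h : ℂ → ℂ} (hh : Sc R h) : Sm (Ct h) := by
  rw [CTS_Ct]
  unfold Sm
  exact contDiff_const.mul
    ((CTS_sc hh).contDiff_convolution_right CTS_L CTS_loc hh.sm)

theorem CTS_fd {R : ℝ} {h : ℂ → ℂ} (hh : Sc R h) (z v : ℂ) :
    fderiv ℝ (Ct h) z v = (1 / Real.pi : ℂ) * ∫ w : ℂ, fderiv ℝ h (z - w) v / w := by
  have hc := CTS_sc hh
  have h1 : ContDiff ℝ 1 h := hh.sm.of_le (by exact_mod_cast le_top)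
  have h2 := hc.hasFDerivAt_convolution_right CTS_L CTS_loc h1 z
  have h3 := h2.const_mul (1 / Real.pi : ℂ)
  have h4 : fderiv ℝ (Ct h) z = (1 / Real.pi : ℂ) •
      ((fun w : ℂ => 1 / w) ⋆[CTS_L.precompR ℂ, volume] fderiv ℝ h) z := by
    rw [CTS_Ct]
    exact h3.fderiv
  rw [h4, _root_.smul_apply,
    convolution_precompR_apply CTS_L CTS_loc (hc.fderiv ℝ) (h1.continuous_fderiv one_ne_zero),
    CTS_conv]
  simp only [smul_eq_mul]

theorem CTS_cv {R : ℝ} {h : ℂ → ℂ} (hh : Sc R h) (v : ℂ) :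
    Continuous (fun z => fderiv ℝ h z v) ∧ HasCompactSupport (fun z => fderiv ℝ h z v) := by
  have hc := CTS_sc hh
  have h1 : ContDiff ℝ 1 h := hh.sm.of_le (by exact_mod_cast le_top)
  exact ⟨(h1.continuous_fderiv one_ne_zero).clm_apply continuous_const, hc.fderiv_apply ℝ v⟩

theorem CTS : CTS_stmt := by
  refine ⟨CTS_int, ?_⟩
  intro R h hh
  have hc := CTS_sc hh
  have hcont : Continuous h := hh.sm.continuous
  have hi1 : ∀ z : ℂ, Integrable (fun w : ℂ => fderiv ℝ h (z - w) 1 / w) := fun z =>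
    CTS_integrable (CTS_cv hh 1).1 (CTS_cv hh 1).2 z
  have hi2 : ∀ z : ℂ, Integrable (fun w : ℂ => fderiv ℝ h (z - w) I / w) := fun z =>
    CTS_integrable (CTS_cv hh I).1 (CTS_cv hh I).2 z
  refine ⟨CTS_sm hh, ?_, ?_, ?_, ?_⟩
  · intro z
    unfold dd
    rw [CTS_fd hh, CTS_fd hh]
    unfold Ct
    have e : ∫ w : ℂ, (fderiv ℝ h (z - w) 1 - I * fderiv ℝ h (z - w) I) / 2 / w =
        ∫ w : ℂ, ((1 / 2 : ℂ) * (fderiv ℝ h (z - w) 1 / w) -
          (I / 2) * (fderiv ℝ h (z - w) I / w)) := by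
      refine integral_congr_ae (Eventually.of_forall fun w => ?_)
      simp only
      ring
    rw [e, integral_sub ((hi1 z).const_mul _) ((hi2 z).const_mul _), integral_const_mul,
      integral_const_mul]
    ring
  · intro z
    unfold db
    rw [CTS_fd hh, CTS_fd hh]
    unfold Ct
    have e : ∫ w : ℂ, (fderiv ℝ h (z - w) 1 + I * fderiv ℝ h (z - w) I) / 2 / w =
        ∫ w : ℂ, ((1 / 2 : ℂ) * (fderiv ℝ h (z - w) 1 / w) +
          (I / 2) * (fderiv ℝ h (z - w) I / w)) := by
      refine integral_congr_ae (Eventually.of_forall fun w => ?_)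
      simp only
      ring
    rw [e, integral_add ((hi1 z).const_mul _) ((hi2 z).const_mul _), integral_const_mul,
      integral_const_mul]
    ring
  · intro z
    unfold Ct
    congr 1
    have e := integral_sub_left_eq_self (fun w : ℂ => h w / (z - w)) volume z
    rw [← e]
    refine integral_congr_ae (Eventually.of_forall fun w => ?_)
    simp only
    rw [sub_sub_cancel]
  · intro z
    have e := (CTS_integrable hcont hc z).comp_sub_left z
    refine e.congr (Eventually.of_forall fun w => ?_)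
    simp only
    rw [sub_sub_cancel]

end NLS
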